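import Pool.Agent.H96hom.Fin

set_option autoImplicit false

namespace Pool.Agent.Results.MP_c85420_an.HomogeneousNotSeparable

/-- A normed space `X` is a strong Gurarii space (of universal disposition for
finite-dimensional spaces): every linear isometric embedding of a subspace `P` of a
finite-dimensional normed space `T` into `X` extends to a linear isometric embedding of `T`. -/
def StrongGurarii (X : Type) [NormedAddCommGroup X] [NormedSpace ℝ X] : Prop :=
  ∀ (T : Type) [NormedAddCommGroup T] [NormedSpace ℝ T] [FiniteDimensional ℝ T]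
    (P : Submodule ℝ T) (f : P →ₗᵢ[ℝ] X), ∃ g : T →ₗᵢ[ℝ] X, ∀ s : P, g s = f s

/-- Homogeneity for finite-dimensional spaces: every bijective linear isometry between
finite-dimensional subspaces of `X` extends to a surjective linear isometry of `X`. -/
def HomogeneousFD (X : Type) [NormedAddCommGroup X] [NormedSpace ℝ X] : Prop :=
  ∀ (E F : Submodule ℝ X), FiniteDimensional ℝ E → FiniteDimensional ℝ F →
    ∀ h : E ≃ₗᵢ[ℝ] F, ∃ g : X ≃ₗᵢ[ℝ] X, ∀ e : E, g e = h e

/-- Universal disposition for separable Banach spaces: every linear isometric embedding of a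
closed subspace `P` of a separable Banach space `T` into `X` extends to a linear isometric
embedding of `T`. -/
def UniversalDispositionSeparable (X : Type) [NormedAddCommGroup X] [NormedSpace ℝ X] : Prop :=
  ∀ (T : Type) [NormedAddCommGroup T] [NormedSpace ℝ T] [CompleteSpace T]
    [TopologicalSpace.SeparableSpace T] (P : Submodule ℝ T), IsClosed (P : Set T) →
    ∀ f : P →ₗᵢ[ℝ] X, ∃ g : T →ₗᵢ[ℝ] X, ∀ s : P, g s = f s

/-- There is a strong Gurarii Banach space which is homogeneous for finite-dimensional
subspaces but not of universal disposition for separable spaces. -/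
theorem result : ∃ (X : Type) (_ : NormedAddCommGroup X) (_ : NormedSpace ℝ X)
    (_ : CompleteSpace X), StrongGurarii X ∧ HomogeneousFD X ∧
      ¬ UniversalDispositionSeparable X := by
  obtain ⟨C, _, _, _, S, hS, hinf, hC⟩ := Pool.Agent.H96hom.exists_sys
  have hcl : IsClosed (Pool.Agent.H96hom.XX S : Set (Pool.Agent.H96hom.Amb S)) :=
    Pool.Agent.H96hom.XX_closed S hS
  refine ⟨Pool.Agent.H96hom.XX S, inferInstance, inferInstance, hcl.completeSpace_coe, ?_, ?_, ?_⟩
  · intro T _ _ _ P f
    exact Pool.Agent.H96hom.univ_disp S hS P f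
  · intro E F hE _ h
    exact Pool.Agent.H96hom.homog hS hinf hC E F hE h
  · intro h
    obtain ⟨s, hs, h1⟩ := Pool.Agent.H96hom.exists_units S hS hinf
    obtain ⟨T, i1, i2, i3, i4, P, hP, f, hf⟩ := Pool.Agent.H96hom.not_sep S hS s hs h1
    obtain ⟨g, hg⟩ := h T P hP f
    exact hf g hg

end Pool.Agent.Results.MP_c85420_an.HomogeneousNotSeparable
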